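import Pool.Agent.H160R3.Herm.Main

/-!
# Voronoi-relevant vectors: the Voronoi cell is cut out by them; covering a ball by caps
-/

set_option autoImplicit false

open MeasureTheory
open scoped RealInnerProductSpace ENNReal

namespace Pool.Agent.J4.H52.VR

open Pool.Agent.H160R3.Herm

abbrev E (n : ℕ) := EuclideanSpace ℝ (Fin n)

/-- squared length of the vector `A w` of the lattice `A ℤⁿ` -/
noncomputable def sqLen {n : ℕ} (A : Matrix (Fin n) (Fin n) ℝ) (w : Fin n → ℤ) : ℝ :=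
  ∑ i, (Matrix.mulVec A (fun j => (w j : ℝ))) i ^ 2

/-- the Voronoi-relevant vectors of `A ℤⁿ`, in coordinates -/
def relevant {n : ℕ} (A : Matrix (Fin n) (Fin n) ℝ) : Set (Fin n → ℤ) :=
  {v | v ≠ 0 ∧ ∀ u : Fin n → ℤ, u ≠ 0 → u ≠ v → sqLen A v < sqLen A (v - 2 • u)}

/-- the vector `A w` -/
noncomputable def pt {n : ℕ} (A : Matrix (Fin n) (Fin n) ℝ) (w : Fin n → ℤ) : E n :=
  WithLp.toLp 2 (Matrix.mulVec A (fun j => (w j : ℝ)))

/-- the open Voronoi cell -/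
def cell {n : ℕ} (A : Matrix (Fin n) (Fin n) ℝ) : Set (E n) :=
  {x | ∀ w : Fin n → ℤ, w ≠ 0 → ‖x‖ < ‖x - pt A w‖}

variable {n : ℕ} {A : Matrix (Fin n) (Fin n) ℝ}

theorem norm_pt_sq (A : Matrix (Fin n) (Fin n) ℝ) (w : Fin n → ℤ) :
    ‖pt A w‖ ^ 2 = sqLen A w := by
  rw [EuclideanSpace.norm_sq_eq]
  refine Finset.sum_congr rfl fun i _ => ?_
  rw [Real.norm_eq_abs, sq_abs]
  rfl

theorem pt_add (A : Matrix (Fin n) (Fin n) ℝ) (v w : Fin n → ℤ) :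
    pt A (v + w) = pt A v + pt A w := by
  unfold pt
  rw [← WithLp.toLp_add, ← Matrix.mulVec_add]
  congr 2
  ext j
  simp

theorem pt_neg (A : Matrix (Fin n) (Fin n) ℝ) (v : Fin n → ℤ) : pt A (-v) = -pt A v := by
  unfold pt
  rw [← WithLp.toLp_neg, ← Matrix.mulVec_neg]
  congr 2
  ext j
  simp

theorem pt_sub (A : Matrix (Fin n) (Fin n) ℝ) (v w : Fin n → ℤ) :
    pt A (v - w) = pt A v - pt A w := by
  rw [sub_eq_add_neg, pt_add, pt_neg, ← sub_eq_add_neg]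

theorem sqLen_neg (A : Matrix (Fin n) (Fin n) ℝ) (v : Fin n → ℤ) : sqLen A (-v) = sqLen A v := by
  rw [← norm_pt_sq, ← norm_pt_sq, pt_neg, norm_neg]

theorem sqLen_nonneg (A : Matrix (Fin n) (Fin n) ℝ) (v : Fin n → ℤ) : 0 ≤ sqLen A v :=
  Finset.sum_nonneg fun _ _ => sq_nonneg _

theorem minSq_le' (A : Matrix (Fin n) (Fin n) ℝ) {w : Fin n → ℤ} (hw : w ≠ 0) :
    minSq A ≤ sqLen A w := minSq_le A w hw

theorem sqLen_pos (hA : A.det ≠ 0) {w : Fin n → ℤ} (hw : w ≠ 0) : 0 < sqLen A w := by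
  rcases lt_or_eq_of_le (sqLen_nonneg A w) with h | h
  · exact h
  · exfalso
    have h1 : Matrix.mulVec A (fun j => (w j : ℝ)) = 0 := by
      ext i
      have h2 : ∀ i ∈ Finset.univ, (Matrix.mulVec A (fun j => (w j : ℝ))) i ^ 2 = 0 :=
        (Finset.sum_eq_zero_iff_of_nonneg fun i _ => sq_nonneg _).1 h.symm
      simpa using h2 i (Finset.mem_univ i)
    have h3 := Matrix.eq_zero_of_mulVec_eq_zero hA h1
    apply hw
    ext j
    have := congrFun h3 j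
    simpa using this

theorem finite_short (hA : A.det ≠ 0) (C : ℝ) : {w : Fin n → ℤ | sqLen A w ≤ C}.Finite := by
  classical
  set M : ℝ := ∑ j, ∑ i, |A⁻¹ j i| with hM
  set B : ℤ := ⌈M * √C⌉ with hB
  refine Set.Finite.subset (Finset.finite_toSet
    (Fintype.piFinset (fun _ : Fin n => Finset.Icc (-B) B))) ?_
  intro w hw
  rw [Finset.mem_coe, Fintype.mem_piFinset]
  intro j
  have h1 : ∀ i, |(Matrix.mulVec A (fun j => (w j : ℝ))) i| ≤ √C := by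
    intro i
    apply Real.abs_le_sqrt
    exact (Finset.single_le_sum (f := fun i => (Matrix.mulVec A (fun j => (w j : ℝ))) i ^ 2)
      (fun _ _ => sq_nonneg _) (Finset.mem_univ i)).trans hw
  have h2 : (w j : ℝ) = ∑ i, A⁻¹ j i * (Matrix.mulVec A (fun j => (w j : ℝ))) i := by
    have h3 : Matrix.mulVec A⁻¹ (Matrix.mulVec A (fun j => (w j : ℝ))) = fun j => (w j : ℝ) := by
      rw [Matrix.mulVec_mulVec, Matrix.nonsing_inv_mul _ (isUnit_iff_ne_zero.2 hA),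
        Matrix.one_mulVec]
    have h4 := congrFun h3 j
    exact h4.symm
  have h5 : |(w j : ℝ)| ≤ M * √C := by
    rw [h2]
    calc |∑ i, A⁻¹ j i * (Matrix.mulVec A (fun j => (w j : ℝ))) i|
        ≤ ∑ i, |A⁻¹ j i * (Matrix.mulVec A (fun j => (w j : ℝ))) i| :=
          Finset.abs_sum_le_sum_abs _ _
      _ ≤ ∑ i, |A⁻¹ j i| * √C := by
          refine Finset.sum_le_sum fun i _ => ?_
          rw [abs_mul]
          exact mul_le_mul_of_nonneg_left (h1 i) (abs_nonneg _)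
      _ = (∑ i, |A⁻¹ j i|) * √C := by rw [Finset.sum_mul]
      _ ≤ M * √C := by
          refine mul_le_mul_of_nonneg_right ?_ (Real.sqrt_nonneg _)
          exact Finset.single_le_sum (f := fun j => ∑ i, |A⁻¹ j i|)
            (fun _ _ => Finset.sum_nonneg fun _ _ => abs_nonneg _) (Finset.mem_univ j)
  have h6 : |(w j : ℝ)| ≤ B := h5.trans (Int.le_ceil _)
  rw [Finset.mem_Icc, ← abs_le]
  exact_mod_cast h6

/-- A point outside the open cell is at least as near to some Voronoi-relevant vector as to `0`. -/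
theorem exists_relevant (hA : A.det ≠ 0) {x : E n} {w : Fin n → ℤ} (hw : w ≠ 0)
    (h : ‖x - pt A w‖ ≤ ‖x‖) : ∃ v ∈ relevant A, ‖x - pt A v‖ ≤ ‖x‖ := by
  set s : Set (Fin n → ℤ) := {w | w ≠ 0 ∧ ‖x - pt A w‖ ≤ ‖x‖} with hs
  have hfin : s.Finite := by
    refine (finite_short hA ((2 * ‖x‖) ^ 2)).subset ?_
    rintro v ⟨_, hv⟩
    change sqLen A v ≤ _
    rw [← norm_pt_sq]
    have : ‖pt A v‖ ≤ 2 * ‖x‖ := by
      calc ‖pt A v‖ = ‖x - (x - pt A v)‖ := by rw [sub_sub_cancel]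
        _ ≤ ‖x‖ + ‖x - pt A v‖ := norm_sub_le _ _
        _ ≤ 2 * ‖x‖ := by linarith
    exact pow_le_pow_left₀ (norm_nonneg _) this 2
  obtain ⟨v, ⟨hv0, hv⟩, hmin⟩ := Set.exists_min_image s (sqLen A) hfin ⟨w, hw, h⟩
  refine ⟨v, ⟨hv0, fun u hu0 huv => ?_⟩, hv⟩
  by_contra hcon
  push Not at hcon
  have ha0 : v - u ≠ 0 := sub_ne_zero.2 (Ne.symm huv)
  set α := pt A (v - u) with hα
  set β := pt A u with hβ
  have e1 : pt A v = α + β := by rw [hα, hβ, ← pt_add]; congr 1; abel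
  have e2 : pt A (v - 2 • u) = α - β := by rw [hα, hβ, ← pt_sub]; congr 1; rw [two_nsmul]; abel
  rw [← norm_pt_sq, ← norm_pt_sq, e1, e2] at hcon
  rw [e1] at hv
  have k1 : ‖α + β‖ ^ 2 = ‖α‖ ^ 2 + 2 * ⟪α, β⟫ + ‖β‖ ^ 2 := norm_add_sq_real _ _
  have k2 : ‖α - β‖ ^ 2 = ‖α‖ ^ 2 - 2 * ⟪α, β⟫ + ‖β‖ ^ 2 := norm_sub_sq_real _ _
  have k3 : ‖x - α‖ ^ 2 = ‖x‖ ^ 2 - 2 * ⟪x, α⟫ + ‖α‖ ^ 2 := norm_sub_sq_real _ _
  have k4 : ‖x - β‖ ^ 2 = ‖x‖ ^ 2 - 2 * ⟪x, β⟫ + ‖β‖ ^ 2 := norm_sub_sq_real _ _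
  have k5 : ‖x - (α + β)‖ ^ 2 = ‖x‖ ^ 2 - 2 * ⟪x, α + β⟫ + ‖α + β‖ ^ 2 := norm_sub_sq_real _ _
  rw [inner_add_right] at k5
  have k6 : ‖x - (α + β)‖ ^ 2 ≤ ‖x‖ ^ 2 := pow_le_pow_left₀ (norm_nonneg _) hv 2
  have pa : 0 < ‖α‖ ^ 2 := by rw [hα, norm_pt_sq]; exact sqLen_pos hA ha0
  have pb : 0 < ‖β‖ ^ 2 := by rw [hβ, norm_pt_sq]; exact sqLen_pos hA hu0
  have hsum : ‖x - α‖ ^ 2 + ‖x - β‖ ^ 2 ≤ 2 * ‖x‖ ^ 2 := by nlinarith
  rcases le_or_gt (‖x - α‖ ^ 2) (‖x‖ ^ 2) with h1 | h1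
  · have h2 : v - u ∈ s := ⟨ha0, by
      rw [← hα]; exact le_of_sq_le_sq h1 (norm_nonneg _)⟩
    have h3 := hmin _ h2
    rw [← norm_pt_sq, ← norm_pt_sq, e1, ← hα] at h3
    nlinarith
  · have h1' : ‖x - β‖ ^ 2 ≤ ‖x‖ ^ 2 := by linarith
    have h2 : u ∈ s := ⟨hu0, by
      rw [← hβ]; exact le_of_sq_le_sq h1' (norm_nonneg _)⟩
    have h3 := hmin _ h2
    rw [← norm_pt_sq, ← norm_pt_sq, e1, ← hβ] at h3
    nlinarith

theorem not_mem_cell (hA : A.det ≠ 0) {x : E n} (hx : x ∉ cell A) :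
    ∃ v ∈ relevant A, ‖x - pt A v‖ ≤ ‖x‖ := by
  simp only [cell, Set.mem_setOf_eq] at hx
  push Not at hx
  obtain ⟨w, hw, h⟩ := hx
  exact exists_relevant hA hw h

/-- The cap cut off by the bisector of `0` and `p` lies in a smaller ball. -/
theorem cap_subset {ρ m : ℝ} {x p : E n} (hx : ‖x‖ < ρ) (h : ‖x - p‖ ≤ ‖x‖) (hm : m ≤ ‖p‖ ^ 2) :
    x ∈ Metric.ball ((1 / 2 : ℝ) • p) (√(ρ ^ 2 - m / 4)) := by
  rw [Metric.mem_ball, dist_eq_norm]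
  apply Real.lt_sqrt_of_sq_lt
  have k1 : ‖x - (1 / 2 : ℝ) • p‖ ^ 2 = ‖x‖ ^ 2 - 2 * ⟪x, (1 / 2 : ℝ) • p⟫ +
      ‖(1 / 2 : ℝ) • p‖ ^ 2 := norm_sub_sq_real _ _
  have k2 : ‖x - p‖ ^ 2 = ‖x‖ ^ 2 - 2 * ⟪x, p⟫ + ‖p‖ ^ 2 := norm_sub_sq_real _ _
  have k3 : ‖x - p‖ ^ 2 ≤ ‖x‖ ^ 2 := pow_le_pow_left₀ (norm_nonneg _) h 2
  rw [inner_smul_right, norm_smul, mul_pow] at k1
  norm_num at k1
  have k4 : ‖x‖ ^ 2 < ρ ^ 2 := by
    have := norm_nonneg x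
    nlinarith
  nlinarith

/-- The Voronoi-relevant vectors of squared length less than `c`. -/
def relShort (A : Matrix (Fin n) (Fin n) ℝ) (c : ℝ) : Set (Fin n → ℤ) :=
  {v | v ∈ relevant A ∧ sqLen A v < c}

theorem relShort_finite (hA : A.det ≠ 0) (c : ℝ) : (relShort A c).Finite :=
  (finite_short hA c).subset fun _ hv => hv.2.le

theorem ball_subset (hA : A.det ≠ 0) (ρ : ℝ) :
    Metric.ball (0 : E n) ρ ⊆ cell A ∪
      ⋃ v ∈ relShort A (4 * ρ ^ 2), Metric.ball ((1 / 2 : ℝ) • pt A v) (√(ρ ^ 2 - minSq A / 4)) := by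
  intro x hx
  by_cases hc : x ∈ cell A
  · exact Or.inl hc
  · obtain ⟨v, hv, hxv⟩ := not_mem_cell hA hc
    rw [mem_ball_zero_iff] at hx
    refine Or.inr (Set.mem_biUnion (x := v) ⟨hv, ?_⟩ ?_)
    · rw [← norm_pt_sq]
      have h1 : ‖pt A v‖ ≤ ‖x‖ + ‖x - pt A v‖ := by
        calc ‖pt A v‖ = ‖x - (x - pt A v)‖ := by rw [sub_sub_cancel]
          _ ≤ _ := norm_sub_le _ _
      have h2 : ‖pt A v‖ < 2 * ρ := by linarith
      have := norm_nonneg (pt A v)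
      nlinarith
    · exact cap_subset hx hxv (by rw [norm_pt_sq]; exact minSq_le' A hv.1)

end Pool.Agent.J4.H52.VR
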