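import Pool.Agent.J4.H52.VR.Ineq

/-!
# Number of Voronoi-relevant vectors: general bound, scaling, orthogonal sums
-/

set_option autoImplicit false

namespace Pool.Agent.J4.H52.VR

open Pool.Agent.H160R3.Herm

variable {n m : ℕ}

theorem sqLen_zero (A : Matrix (Fin n) (Fin n) ℝ) : sqLen A 0 = 0 := by
  rw [← norm_pt_sq]
  unfold pt
  have : (fun j => (((0 : Fin n → ℤ) j : ℤ) : ℝ)) = (0 : Fin n → ℝ) := by ext j; simp
  rw [this, Matrix.mulVec_zero]
  simp

/-- Two Voronoi-relevant vectors in the same class modulo `2` are equal or opposite. -/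
theorem class_eq {A : Matrix (Fin n) (Fin n) ℝ} {v w : Fin n → ℤ} (hv : v ∈ relevant A)
    (hw : w ∈ relevant A) (h : ∃ u, w = v - 2 • u) : w = v ∨ w = -v := by
  obtain ⟨u, hu⟩ := h
  by_contra hcon
  push Not at hcon
  have hu0 : u ≠ 0 := by
    rintro rfl
    apply hcon.1
    rw [hu, smul_zero, sub_zero]
  have huv : u ≠ v := by
    rintro rfl
    apply hcon.2
    rw [hu, two_nsmul]; abel
  have h1 := hv.2 u hu0 huv
  rw [← hu] at h1
  have h2 := hw.2 (-u) (neg_ne_zero.2 hu0) (by
    intro h3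
    apply hcon.2
    have : v = w + 2 • u := by rw [hu]; abel
    have h4 : u = -w := by rw [← h3]; abel
    rw [this, h4, two_nsmul]; abel)
  have e : w - 2 • (-u) = v := by rw [hu, smul_neg]; abel
  rw [e] at h2
  exact absurd h1 (not_lt.2 h2.le)

theorem exists_half {v w : Fin n → ℤ} (h : ∀ j, (v j : ZMod 2) = (w j : ZMod 2)) :
    ∃ u : Fin n → ℤ, w = v - 2 • u := by
  have h1 : ∀ j, ∃ c : ℤ, v j - w j = 2 * c := by
    intro j
    have h2 : ((v j - w j : ℤ) : ZMod 2) = 0 := by
      rw [Int.cast_sub, h j, sub_self]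
    rw [ZMod.intCast_zmod_eq_zero_iff_dvd] at h2
    exact h2
  choose u hu using h1
  refine ⟨u, ?_⟩
  ext j
  have := hu j
  rw [Pi.sub_apply, Pi.smul_apply, nsmul_eq_mul]
  push_cast
  linarith

/-- Voronoi: at most `2 (2^n - 1)` relevant vectors -/
theorem relevant_le (A : Matrix (Fin n) (Fin n) ℝ) :
    (relevant A).encard ≤ ((2 * (2 ^ n - 1) : ℕ) : ℕ∞) := by
  classical
  set cls : (Fin n → ℤ) → (Fin n → ZMod 2) := fun v j => (v j : ZMod 2) with hcls
  have hne : ∀ v ∈ relevant A, cls v ≠ 0 := by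
    intro v hv h0
    obtain ⟨u, hu⟩ := exists_half (v := v) (w := 0) (fun j => by
      have := congrFun h0 j
      simpa [hcls] using this)
    have hvu : v = 2 • u := by
      have := hu.symm
      rwa [sub_eq_zero] at this
    have hu0 : u ≠ 0 := by
      rintro rfl
      apply hv.1
      rw [hvu, smul_zero]
    have huv : u ≠ v := by
      intro h
      rw [two_nsmul] at hvu
      apply hu0
      have : u + 0 = u + u := by rw [add_zero, ← hvu, h]
      exact (add_left_cancel this).symm
    have h2 := hv.2 u hu0 huv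
    rw [← hvu, sub_self, sqLen_zero] at h2
    exact absurd h2 (not_lt.2 (sqLen_nonneg A v))
  have hrep : ∀ c : Fin n → ZMod 2, ∃ r : Fin n → ℤ,
      (∃ v ∈ relevant A, cls v = c) → r ∈ relevant A ∧ cls r = c := by
    intro c
    by_cases h : ∃ v ∈ relevant A, cls v = c
    · obtain ⟨v, hv, hvc⟩ := h
      exact ⟨v, fun _ => ⟨hv, hvc⟩⟩
    · exact ⟨0, fun h' => absurd h' h⟩
  choose r hr using hrep
  let f : relevant A → {c : Fin n → ZMod 2 // c ≠ 0} × Bool :=
    fun v => (⟨cls v.1, hne v.1 v.2⟩, decide (v.1 = r (cls v.1)))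
  have hf : Function.Injective f := by
    intro v w hvw
    have h1 : cls v.1 = cls w.1 := congrArg (fun p => p.1.1) hvw
    have h2 : decide (v.1 = r (cls v.1)) = decide (w.1 = r (cls w.1)) := congrArg (fun p => p.2) hvw
    have hr1 := hr (cls v.1) ⟨v.1, v.2, rfl⟩
    have mem : ∀ x : relevant A, cls x.1 = cls v.1 → x.1 = r (cls v.1) ∨ x.1 = -r (cls v.1) := by
      intro x hx
      apply class_eq hr1.1 x.2
      apply exists_half
      intro j
      exact congrFun (hr1.2.trans hx.symm) j
    apply Subtype.ext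
    rw [← h1] at h2
    by_cases hv : v.1 = r (cls v.1)
    · rw [decide_eq_true hv] at h2
      have hw : w.1 = r (cls v.1) := of_decide_eq_true h2.symm
      rw [hv, hw]
    · rw [decide_eq_false hv] at h2
      have hw : w.1 ≠ r (cls v.1) := of_decide_eq_false h2.symm
      rw [(mem v rfl).resolve_left hv, (mem w h1.symm).resolve_left hw]
  have hcard : Fintype.card ({c : Fin n → ZMod 2 // c ≠ 0} × Bool) = 2 * (2 ^ n - 1) := by
    rw [Fintype.card_prod, Fintype.card_bool, Fintype.card_subtype_compl, Fintype.card_fun,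
      ZMod.card, Fintype.card_fin, Fintype.card_unique, mul_comm]
  have h := ENat.card_le_card_of_injective hf
  rw [ENat.card_eq_coe_fintype_card (α := {c : Fin n → ZMod 2 // c ≠ 0} × Bool), hcard] at h
  exact h

theorem sqLen_smul (A : Matrix (Fin n) (Fin n) ℝ) (s : ℝ) (w : Fin n → ℤ) :
    sqLen (s • A) w = s ^ 2 * sqLen A w := by
  unfold sqLen
  rw [Finset.mul_sum]
  refine Finset.sum_congr rfl fun i _ => ?_
  rw [Matrix.smul_mulVec]
  simp only [Pi.smul_apply, smul_eq_mul]
  ring

theorem relevant_smul (A : Matrix (Fin n) (Fin n) ℝ) {s : ℝ} (hs : s ≠ 0) :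
    relevant (s • A) = relevant A := by
  ext v
  have hs2 : 0 < s ^ 2 := by positivity
  simp only [relevant, Set.mem_ofPred_eq, sqLen_smul]
  refine and_congr_right fun _ => forall_congr' fun u => forall_congr' fun _ =>
    forall_congr' fun _ => ?_
  exact mul_lt_mul_iff_right₀ hs2

/-- left part of a vector -/
def lft (v : Fin (n + m) → ℤ) : Fin n → ℤ := fun j => v (Fin.castAdd m j)
/-- right part of a vector -/
def rgt (v : Fin (n + m) → ℤ) : Fin m → ℤ := fun j => v (Fin.natAdd n j)
/-- a vector with given parts -/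
def jn (a : Fin n → ℤ) (b : Fin m → ℤ) : Fin (n + m) → ℤ := Fin.addCases a b

theorem lft_jn (a : Fin n → ℤ) (b : Fin m → ℤ) : lft (jn a b) = a := by
  ext j; simp [lft, jn]

theorem rgt_jn (a : Fin n → ℤ) (b : Fin m → ℤ) : rgt (jn a b) = b := by
  ext j; simp [rgt, jn]

theorem jn_eta (v : Fin (n + m) → ℤ) : jn (lft v) (rgt v) = v := by
  ext i
  refine Fin.addCases (fun j => ?_) (fun j => ?_) i
  · simp [jn, lft]
  · simp [jn, rgt]

theorem jn_sub (a a' : Fin n → ℤ) (b b' : Fin m → ℤ) :
    jn a b - 2 • jn a' b' = jn (a - 2 • a') (b - 2 • b') := by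
  ext i
  refine Fin.addCases (fun j => ?_) (fun j => ?_) i
  · simp [jn]
  · simp [jn]

theorem jn_inj {a a' : Fin n → ℤ} {b b' : Fin m → ℤ} (h : jn a b = jn a' b') : a = a' ∧ b = b' := by
  refine ⟨?_, ?_⟩
  · rw [← lft_jn a b, h, lft_jn]
  · rw [← rgt_jn a b, h, rgt_jn]

theorem jn_zero : jn (0 : Fin n → ℤ) (0 : Fin m → ℤ) = 0 := by
  ext i
  refine Fin.addCases (fun j => ?_) (fun j => ?_) i <;> simp [jn]

theorem sqLen_bsum (A : Matrix (Fin n) (Fin n) ℝ) (B : Matrix (Fin m) (Fin m) ℝ)
    (a : Fin n → ℤ) (b : Fin m → ℤ) : sqLen (bsum A B) (jn a b) = sqLen A a + sqLen B b := by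
  unfold sqLen
  rw [sum_bsum]
  simp [jn]

theorem relevant_bsum (A : Matrix (Fin n) (Fin n) ℝ) (B : Matrix (Fin m) (Fin m) ℝ) :
    (relevant (bsum A B)).encard ≤ (relevant A).encard + (relevant B).encard := by
  have hsub : relevant (bsum A B) ⊆
      (fun a => jn a (0 : Fin m → ℤ)) '' relevant A ∪ (fun b => jn (0 : Fin n → ℤ) b) '' relevant B := by
    intro v hv
    rw [← jn_eta v] at hv ⊢
    set a := lft v
    set b := rgt v
    obtain ⟨hv0, hv1⟩ := hv
    by_cases ha : a = 0
    · right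
      refine ⟨b, ⟨?_, fun u hu0 hub => ?_⟩, by rw [ha]⟩
      · intro hb
        exact hv0 (by rw [ha, hb, jn_zero])
      · have h := hv1 (jn 0 u) (fun h => hu0 (jn_inj (h.trans jn_zero.symm)).2)
          (fun h => hub (jn_inj h).2)
        rw [jn_sub, sqLen_bsum, sqLen_bsum, smul_zero, sub_zero] at h
        linarith
    · by_cases hb : b = 0
      · left
        refine ⟨a, ⟨ha, fun u hu0 hua => ?_⟩, by rw [hb]⟩
        have h := hv1 (jn u 0) (fun h => hu0 (jn_inj (h.trans jn_zero.symm)).1)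
          (fun h => hua (jn_inj h).1)
        rw [jn_sub, sqLen_bsum, sqLen_bsum, smul_zero, sub_zero] at h
        linarith
      · exfalso
        have h := hv1 (jn a 0) (fun h => ha (jn_inj (h.trans jn_zero.symm)).1)
          (fun h => hb (jn_inj h).2.symm)
        rw [jn_sub, sqLen_bsum, sqLen_bsum, smul_zero, sub_zero] at h
        have e : a - 2 • a = -a := by rw [two_nsmul]; abel
        rw [e, sqLen_neg] at h
        exact lt_irrefl _ h
  refine (Set.encard_le_encard hsub).trans ((Set.encard_union_le _ _).trans ?_)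
  exact add_le_add (Set.encard_image_le _ _) (Set.encard_image_le _ _)

/-- one block -/
theorem block {k n : ℕ} (hk : 1 ≤ k) (hkn : k ≤ n) :
    ∃ A : Matrix (Fin n) (Fin n) ℝ, |A.det| = 1 ∧ (k : ℝ) / 145 ≤ minSq A ∧
      (relevant A).encard ≤ ((2 * (2 ^ n - 1) : ℕ) : ℕ∞) := by
  have hn : 0 < n := by omega
  have hn' : (0 : ℝ) < n := by exact_mod_cast hn
  have hk' : (1 : ℝ) ≤ k := by exact_mod_cast hk
  have hkn' : (k : ℝ) ≤ n := by exact_mod_cast hkn
  have h1 : (k : ℝ) / 145 < hermite n := by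
    have := hermite_ge hn
    have h2 : (k : ℝ) / 145 < n / 144 := by
      rw [div_lt_div_iff₀ (by norm_num) (by norm_num)]
      nlinarith
    linarith
  obtain ⟨A, hA, hA1⟩ := exists_lt_value h1
  have hd : 0 < |A.det| := abs_pos.2 hA
  set s : ℝ := |A.det| ^ (-(1 : ℝ) / n) with hs
  have hs0 : 0 < s := by positivity
  refine ⟨s • A, ?_, ?_, relevant_le _⟩
  · rw [Matrix.det_smul, Fintype.card_fin, abs_mul, abs_of_pos (by positivity), hs,
      ← Real.rpow_natCast, ← Real.rpow_mul hd.le, div_mul_cancel₀ _ hn'.ne', Real.rpow_neg_one,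
      inv_mul_cancel₀ hd.ne']
  · have h3 : s ^ 2 * minSq A ≤ minSq (s • A) := le_minSq hn _ _ fun w hw => minSq_smul_le A s w hw
    refine le_trans ?_ h3
    have e : s ^ 2 * minSq A = minSq A / |A.det| ^ ((2 : ℝ) / n) := by
      rw [hs, ← Real.rpow_natCast, ← Real.rpow_mul hd.le, div_eq_mul_inv (minSq A),
        mul_comm (minSq A), ← Real.rpow_neg hd.le]
      congr 2
      push_cast
      ring
    rw [e]
    exact hA1.le

/-- Orthogonal sums of blocks of rank `k ≤ r < 2k`. -/
theorem exists_few {k : ℕ} (hk : 1 ≤ k) : ∀ n : ℕ, k ≤ n →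
    ∃ A : Matrix (Fin n) (Fin n) ℝ, |A.det| = 1 ∧ (k : ℝ) / 145 ≤ minSq A ∧
      (relevant A).encard ≤ ((n * (2 * (2 ^ (2 * k - 1) - 1)) : ℕ) : ℕ∞) := by
  intro n
  induction n using Nat.strong_induction_on with
  | _ n ih =>
    intro hkn
    set c := 2 * (2 ^ (2 * k - 1) - 1) with hc
    have small : ∀ r : ℕ, 2 * (2 ^ r - 1) ≤ c ∨ 2 * k ≤ r := by
      intro r
      by_cases h : 2 * k ≤ r
      · exact Or.inr h
      · left
        have h1 : r ≤ 2 * k - 1 := by omega
        have h2 : 2 ^ r ≤ 2 ^ (2 * k - 1) := Nat.pow_le_pow_right (by norm_num) h1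
        omega
    by_cases hlt : n < 2 * k
    · obtain ⟨A, h1, h2, h3⟩ := block hk hkn
      refine ⟨A, h1, h2, h3.trans ?_⟩
      have h4 : 2 * (2 ^ n - 1) ≤ c := (small n).resolve_right (by omega)
      have h5 : c ≤ n * c := Nat.le_mul_of_pos_left _ (by omega)
      exact_mod_cast h4.trans h5
    · obtain ⟨m, rfl⟩ := Nat.exists_eq_add_of_le hkn
      obtain ⟨A, a1, a2, a3⟩ := block hk (le_refl k)
      obtain ⟨B, b1, b2, b3⟩ := ih m (by omega) (by omega)
      refine ⟨bsum A B, ?_, ?_, ?_⟩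
      · rw [det_bsum, abs_mul, a1, b1, one_mul]
      · apply le_minSq (by omega)
        intro w hw
        have hw' : w = jn (lft w) (rgt w) := (jn_eta w).symm
        change (k : ℝ) / 145 ≤ sqLen (bsum A B) w
        rw [hw', sqLen_bsum]
        have p1 := sqLen_nonneg A (lft w)
        have p2 := sqLen_nonneg B (rgt w)
        by_cases h : lft w = 0
        · have h' : rgt w ≠ 0 := by
            intro h'
            apply hw
            rw [hw', h, h', jn_zero]
          have := minSq_le' B h'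
          linarith
        · have := minSq_le' A h
          linarith
      · refine (relevant_bsum A B).trans ((add_le_add a3 b3).trans ?_)
        have h4 : 2 * (2 ^ k - 1) ≤ c := (small k).resolve_right (by omega)
        have h5 : 2 * (2 ^ k - 1) + m * c ≤ (k + m) * c := by
          have : c ≤ k * c := Nat.le_mul_of_pos_left _ (by omega)
          rw [add_mul]
          omega
        exact_mod_cast h5

end Pool.Agent.J4.H52.VR
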