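import Pool.Agent.J4.H52.VR.LogB
import Pool.Agent.J4.H52.VR.Sum

/-!
# Hermite's constant for lattices with few Voronoi-relevant vectors: final statements
-/

set_option autoImplicit false

open Filter
open scoped Topology

namespace Pool.Agent.J4.H52.VR

open Pool.Agent.H160R3.Herm

variable {n : ℕ} {A : Matrix (Fin n) (Fin n) ℝ}

theorem lim_a : Tendsto (fun n : ℕ => (6 * n : ℝ) ^ ((2 : ℝ) / n)) atTop (𝓝 1) := by
  have h := tendsto_rpow_div_mul_add 12 1 0 (by norm_num)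
  have h2 : Tendsto (fun n : ℕ => (6 * n : ℝ)) atTop atTop :=
    tendsto_natCast_atTop_atTop.const_mul_atTop (by norm_num)
  refine (h.comp h2).congr' ?_
  filter_upwards [eventually_gt_atTop 0] with n hn
  have hn' : (0 : ℝ) < n := by exact_mod_cast hn
  simp only [Function.comp]
  congr 1
  field_simp
  ring

theorem lim_b : Tendsto (fun n : ℕ => (2 : ℝ) ^ (-(2 : ℝ) / n)) atTop (𝓝 1) := by
  have h : Tendsto (fun n : ℕ => -(2 : ℝ) / n) atTop (𝓝 0) :=
    tendsto_const_div_atTop_nhds_zero_nat _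
  have h2 := (Real.continuous_const_rpow (by norm_num : (2 : ℝ) ≠ 0)).tendsto 0
  rw [Real.rpow_zero] at h2
  exact h2.comp h

/-- few short relevant vectors: bound for the Hermite invariant -/
theorem upper_ev {K : ℝ} (hK : 0 < K) {ε : ℝ} (hε : 0 < ε) :
    ∀ᶠ n : ℕ in atTop, ∀ A : Matrix (Fin n) (Fin n) ℝ, A.det ≠ 0 →
      ((relShort A (lenB A)).ncard : ℝ) ≤ K ^ n →
      inv A / n ≤ 2 / (Real.pi * Real.exp 1) * (1 - (K ^ 2)⁻¹) + ε := by
  have hlim : Tendsto (fun n : ℕ => 2 / (Real.pi * Real.exp 1) * (6 * n : ℝ) ^ ((2 : ℝ) / n) *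
      (1 - (2 : ℝ) ^ (-(2 : ℝ) / n) * (K ^ 2)⁻¹)) atTop
      (𝓝 (2 / (Real.pi * Real.exp 1) * 1 * (1 - 1 * (K ^ 2)⁻¹))) :=
    (lim_a.const_mul _).mul ((lim_b.mul_const _).const_sub _)
  rw [mul_one, one_mul] at hlim
  filter_upwards [hlim.eventually (gt_mem_nhds (show 2 / (Real.pi * Real.exp 1) * (1 - (K ^ 2)⁻¹) <
    2 / (Real.pi * Real.exp 1) * (1 - (K ^ 2)⁻¹) + ε by linarith)), eventually_gt_atTop 0]
    with n h1 hn A hA hN
  have hn' : (0 : ℝ) < n := by exact_mod_cast hn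
  obtain ⟨h2, h3⟩ := inv_le hn hA
  refine (h3.trans ?_).trans h1.le
  apply mul_le_mul_of_nonneg_left _ (by positivity)
  have hN0 : (0 : ℝ) < (relShort A (lenB A)).ncard := by exact_mod_cast h2
  have h4 : (2 : ℝ) ^ (-(2 : ℝ) / n) * (K ^ 2)⁻¹ ≤
      (2 * ((relShort A (lenB A)).ncard : ℝ)) ^ (-(2 : ℝ) / n) := by
    have h5 : (2 * K ^ n) ^ (-(2 : ℝ) / n) ≤
        (2 * ((relShort A (lenB A)).ncard : ℝ)) ^ (-(2 : ℝ) / n) := by
      apply Real.rpow_le_rpow_of_nonpos (by positivity) (by linarith)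
      rw [neg_div]
      have : 0 < (2 : ℝ) / n := by positivity
      linarith
    refine le_trans (le_of_eq ?_) h5
    rw [Real.mul_rpow (by norm_num) (by positivity)]
    congr 1
    rw [← Real.rpow_natCast K n, ← Real.rpow_mul hK.le, mul_div_cancel₀ _ hn'.ne',
      Real.rpow_neg hK.le]
    norm_cast
  linarith

/-- dense lattices have exponentially many short relevant vectors -/
theorem dense_ev {θ K : ℝ} (hθ : 0 < θ) (hK : 0 < K)
    (h : K ^ 2 * (1 - Real.pi * Real.exp 1 / 2 * θ) < 1) {ε : ℝ} (hε : 0 < ε) :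
    ∀ᶠ n : ℕ in atTop, ∀ A : Matrix (Fin n) (Fin n) ℝ, A.det ≠ 0 → θ * n ≤ inv A →
      K ^ n ≤ ((relShort A ((2 / (Real.pi * Real.exp 1 * θ) + ε) * minSq A)).ncard : ℝ) := by
  have hpe : 0 < Real.pi * Real.exp 1 := by positivity
  have hgap : 0 < θ - 2 / (Real.pi * Real.exp 1) * (1 - (K ^ 2)⁻¹) := by
    have hK2 : 0 < K ^ 2 := by positivity
    have h1 : 1 - Real.pi * Real.exp 1 / 2 * θ < (K ^ 2)⁻¹ := by
      rw [← one_div, lt_div_iff₀ hK2]
      linarith
    have h2 : 1 - (K ^ 2)⁻¹ < Real.pi * Real.exp 1 / 2 * θ := by linarith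
    have h3 : 2 / (Real.pi * Real.exp 1) * (1 - (K ^ 2)⁻¹) <
        2 / (Real.pi * Real.exp 1) * (Real.pi * Real.exp 1 / 2 * θ) :=
      mul_lt_mul_of_pos_left h2 (by positivity)
    have h4 : 2 / (Real.pi * Real.exp 1) * (Real.pi * Real.exp 1 / 2 * θ) = θ := by field_simp
    linarith
  set δ := (θ - 2 / (Real.pi * Real.exp 1) * (1 - (K ^ 2)⁻¹)) / 2 with hδ
  have hδ0 : 0 < δ := by linarith
  have ha : ∀ᶠ n : ℕ in atTop, (6 * n : ℝ) ^ ((2 : ℝ) / n) <
      1 + ε * (Real.pi * Real.exp 1 * θ / 2) :=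
    lim_a.eventually (gt_mem_nhds (by
      have : 0 < ε * (Real.pi * Real.exp 1 * θ / 2) := by positivity
      linarith))
  filter_upwards [upper_ev hK hδ0, ha, eventually_gt_atTop 0] with n h1 h2 hn A hA hθA
  have hn' : (0 : ℝ) < n := by exact_mod_cast hn
  have hd : 0 < |A.det| := abs_pos.2 hA
  have h3 : K ^ n ≤ ((relShort A (lenB A)).ncard : ℝ) := by
    by_contra hcon
    push Not at hcon
    have h4 := h1 A hA hcon.le
    have h5 : θ ≤ inv A / n := by rwa [le_div_iff₀ hn']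
    linarith
  refine h3.trans ?_
  have hlen : lenB A ≤ (2 / (Real.pi * Real.exp 1 * θ) + ε) * minSq A := by
    have hdp : 0 < |A.det| ^ ((2 : ℝ) / n) := by positivity
    have h6 : θ * n * |A.det| ^ ((2 : ℝ) / n) ≤ minSq A := by
      rw [inv, le_div_iff₀ hdp] at hθA
      exact hθA
    calc lenB A = 2 / (Real.pi * Real.exp 1 * θ) * (6 * n : ℝ) ^ ((2 : ℝ) / n) *
          (θ * n * |A.det| ^ ((2 : ℝ) / n)) := by
          rw [lenB]
          field_simp
      _ ≤ 2 / (Real.pi * Real.exp 1 * θ) * (6 * n : ℝ) ^ ((2 : ℝ) / n) * minSq A :=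
          mul_le_mul_of_nonneg_left h6 (by positivity)
      _ ≤ _ := by
          apply mul_le_mul_of_nonneg_right _ (minSq_nonneg A)
          calc 2 / (Real.pi * Real.exp 1 * θ) * (6 * n : ℝ) ^ ((2 : ℝ) / n)
              ≤ 2 / (Real.pi * Real.exp 1 * θ) * (1 + ε * (Real.pi * Real.exp 1 * θ / 2)) :=
                mul_le_mul_of_nonneg_left h2.le (by positivity)
            _ = _ := by field_simp
  have hsub : relShort A (lenB A) ⊆
      relShort A ((2 / (Real.pi * Real.exp 1 * θ) + ε) * minSq A) :=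
    fun v hv => ⟨hv.1, hv.2.trans_le hlen⟩
  exact_mod_cast Set.ncard_le_ncard hsub (relShort_finite hA _)

/-- Hermite's constant for lattices with at most `F` Voronoi-relevant vectors -/
noncomputable def hermiteV (n F : ℕ) : ℝ :=
  sSup {g | ∃ A : Matrix (Fin n) (Fin n) ℝ, A.det ≠ 0 ∧ (relevant A).encard ≤ F ∧ inv A = g}

theorem bdd (hn : 0 < n) (F : ℕ) : BddAbove {g | ∃ A : Matrix (Fin n) (Fin n) ℝ,
    A.det ≠ 0 ∧ (relevant A).encard ≤ F ∧ inv A = g} :=
  ⟨hermite n, by rintro _ ⟨A, hA, _, rfl⟩; exact le_hermite hn A hA⟩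

theorem hermiteV_nonneg (n F : ℕ) : 0 ≤ hermiteV n F :=
  Real.sSup_nonneg (by rintro _ ⟨A, _, _, rfl⟩; exact inv_nonneg' A)

theorem hermiteV_le {F : ℕ} {c : ℝ} (hc : 0 ≤ c)
    (h : ∀ A : Matrix (Fin n) (Fin n) ℝ, A.det ≠ 0 → (relevant A).encard ≤ F → inv A ≤ c) :
    hermiteV n F ≤ c :=
  Real.sSup_le (by rintro _ ⟨A, hA, hF, rfl⟩; exact h A hA hF) hc

theorem ncard_le_of {F : ℕ} (hF : (relevant A).encard ≤ F) (c : ℝ) :
    (relShort A c).ncard ≤ F := by
  have hfin : (relevant A).Finite := Set.finite_of_encard_le_coe hF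
  have h1 : (relShort A c).ncard ≤ (relevant A).ncard :=
    Set.ncard_le_ncard (fun v hv => hv.1) hfin
  have h2 : ((relevant A).ncard : ℕ∞) ≤ F := by rw [hfin.cast_ncard_eq]; exact hF
  exact h1.trans (by exact_mod_cast h2)

theorem hermiteV_upper_ev {K : ℝ} (hK : 1 ≤ K) {ε : ℝ} (hε : 0 < ε) :
    ∀ᶠ n : ℕ in atTop, ∀ F : ℕ, (F : ℝ) ≤ K ^ n →
      hermiteV n F / n ≤ 2 / (Real.pi * Real.exp 1) * (1 - (K ^ 2)⁻¹) + ε := by
  filter_upwards [upper_ev (by linarith : 0 < K) hε, eventually_gt_atTop 0] with n h1 hn F hF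
  have hn' : (0 : ℝ) < n := by exact_mod_cast hn
  rw [div_le_iff₀ hn']
  have h0 : 0 ≤ 2 / (Real.pi * Real.exp 1) * (1 - (K ^ 2)⁻¹) + ε := by
    have : (K ^ 2)⁻¹ ≤ 1 := inv_le_one_of_one_le₀ (one_le_pow₀ hK)
    have h2 : 0 ≤ 2 / (Real.pi * Real.exp 1) * (1 - (K ^ 2)⁻¹) :=
      mul_nonneg (by positivity) (by linarith)
    linarith
  apply hermiteV_le (by positivity)
  intro A hA hFA
  have h2 := h1 A hA ((by exact_mod_cast ncard_le_of hFA _ :
    ((relShort A (lenB A)).ncard : ℝ) ≤ F).trans hF)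
  rwa [div_le_iff₀ hn'] at h2

theorem hermiteV_eq (hn : 0 < n) {F : ℕ} (hF : 2 * (2 ^ n - 1) ≤ F) : hermiteV n F = hermite n := by
  apply le_antisymm
  · exact hermiteV_le (le_trans zero_le_one (one_le_hermite hn)) fun A hA _ => le_hermite hn A hA
  · have : Nonempty {A : Matrix (Fin n) (Fin n) ℝ // A.det ≠ 0} := ⟨⟨1, by simp⟩⟩
    refine ciSup_le fun A => ?_
    refine le_csSup (bdd hn F) ⟨A.1, A.2, (relevant_le A.1).trans ?_, rfl⟩
    exact_mod_cast hF

theorem hermiteV_ge_block (hn : 0 < n) {F k : ℕ} (hk : 1 ≤ k) (hkn : k ≤ n)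
    (hF : n * (2 * (2 ^ (2 * k - 1) - 1)) ≤ F) : (k : ℝ) / 145 ≤ hermiteV n F := by
  obtain ⟨A, h1, h2, h3⟩ := exists_few hk n hkn
  refine h2.trans ?_
  have hA : A.det ≠ 0 := by
    intro h
    rw [h, abs_zero] at h1
    exact zero_ne_one h1
  have e : inv A = minSq A := by
    rw [inv, h1, Real.one_rpow, div_one]
  rw [← e]
  exact le_csSup (bdd hn F) ⟨A, hA, h3.trans (by exact_mod_cast hF), rfl⟩

theorem hermiteV_lower (hn : 0 < n) {F : ℕ} (h1 : 2 * n ≤ F) (h2 : F ≤ 2 ^ (n + 1)) :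
    Real.log (2 * F / n) / 600 ≤ hermiteV n F := by
  have hn' : (0 : ℝ) < n := by exact_mod_cast hn
  have hF' : 2 * (n : ℝ) ≤ F := by exact_mod_cast h1
  have hFp : (0 : ℝ) < F := by linarith
  have l2 : Real.log 2 < 0.6931471808 := Real.log_two_lt_d9
  by_cases hsm : F < 16 * n
  · have hb := hermiteV_ge_block hn (F := F) (k := 1) le_rfl hn (by norm_num; omega)
    refine le_trans ?_ hb
    have hF3 : (F : ℝ) < 16 * n := by exact_mod_cast hsm
    have h3 : Real.log (2 * F / n) ≤ Real.log ((2 : ℝ) ^ 5) := by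
      apply Real.log_le_log (by positivity)
      rw [div_le_iff₀ hn']
      linarith
    rw [Real.log_pow] at h3
    push_cast at h3 ⊢
    linarith
  · push Not at hsm
    have hF3 : 16 * (n : ℝ) ≤ F := by exact_mod_cast hsm
    set k := Nat.log 4 (F / n) with hk
    have hq : 16 ≤ F / n := by
      rw [Nat.le_div_iff_mul_le hn]
      exact hsm
    have hk2 : 2 ≤ k := by
      rw [hk]
      have : Nat.log 4 16 ≤ Nat.log 4 (F / n) := Nat.log_mono_right hq
      have e : Nat.log 4 16 = 2 := by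
        rw [show (16 : ℕ) = 4 ^ 2 by norm_num, Nat.log_pow (by norm_num)]
      omega
    have hk3 : 4 ^ k ≤ F / n := Nat.pow_log_le_self 4 (by omega)
    have hk4 : F / n < 4 ^ (k + 1) := Nat.lt_pow_succ_log_self (by norm_num) _
    have hk5 : n * 4 ^ k ≤ F := by
      calc n * 4 ^ k ≤ n * (F / n) := Nat.mul_le_mul_left _ hk3
        _ ≤ F := Nat.mul_div_le _ _
    have hkn : k ≤ n := by
      have h3 : (4 : ℕ) ^ k ≤ 2 ^ (n + 1) := by
        calc 4 ^ k ≤ n * 4 ^ k := Nat.le_mul_of_pos_left _ hn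
          _ ≤ F := hk5
          _ ≤ _ := h2
      rw [show (4 : ℕ) = 2 ^ 2 by norm_num, ← pow_mul] at h3
      have h4 := (Nat.pow_le_pow_iff_right (by norm_num : 1 < 2)).1 h3
      omega
    have hb := hermiteV_ge_block hn (F := F) (k := k) (by omega) hkn (by
      refine le_trans (Nat.mul_le_mul_left n ?_) hk5
      have e : 4 ^ k = 2 * 2 ^ (2 * k - 1) := by
        rw [show (4 : ℕ) = 2 ^ 2 by norm_num, ← pow_mul, ← pow_succ']
        congr 1
        omega
      omega)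
    refine le_trans ?_ hb
    have h5 : (F : ℝ) < 4 ^ (k + 1) * n := by
      have h6 := (Nat.div_lt_iff_lt_mul hn).1 hk4
      exact_mod_cast h6
    have h7 : Real.log (2 * F / n) ≤ Real.log ((2 : ℝ) ^ (2 * k + 3)) := by
      apply Real.log_le_log (by positivity)
      rw [div_le_iff₀ hn']
      have e : (2 : ℝ) ^ (2 * k + 3) = 2 * 4 ^ (k + 1) := by
        rw [show (4 : ℝ) = 2 ^ 2 by norm_num, ← pow_mul]
        ring
      rw [e]
      linarith
    rw [Real.log_pow] at h7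
    push_cast at h7
    have hk' : (2 : ℝ) ≤ k := by exact_mod_cast hk2
    nlinarith

theorem hermiteV_upper (hn : 0 < n) {F : ℕ} (h1 : 2 * n ≤ F) :
    hermiteV n F ≤ 7 * Real.log (2 * F / n) := by
  have hn' : (0 : ℝ) < n := by exact_mod_cast hn
  have hF' : 2 * (n : ℝ) ≤ F := by exact_mod_cast h1
  have h0 : 0 ≤ Real.log (2 * F / n) := by
    apply Real.log_nonneg
    rw [le_div_iff₀ hn']
    linarith
  exact hermiteV_le (by positivity) fun A hA hF => inv_le_log' hn hA h1 hF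

/-- subexponentially many relevant vectors -/
theorem hermiteV_subexp {F : ℕ → ℕ} (hF0 : ∀ᶠ n in atTop, 0 < F n)
    (hF : Tendsto (fun n : ℕ => Real.log (F n) / n) atTop (𝓝 0)) :
    Tendsto (fun n : ℕ => hermiteV n (F n) / n) atTop (𝓝 0) := by
  rw [Metric.tendsto_atTop']
  intro ε hε
  set c := 2 / (Real.pi * Real.exp 1) with hc
  have hc0 : 0 < c := by positivity
  -- choose `K > 1`
  have hcont : Tendsto (fun K : ℝ => c * (1 - (K ^ 2)⁻¹)) (𝓝[>] 1) (𝓝 (c * (1 - (1 ^ 2)⁻¹))) := by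
    apply Tendsto.mono_left _ nhdsWithin_le_nhds
    apply ContinuousAt.tendsto
    apply ContinuousAt.mul continuousAt_const
    apply ContinuousAt.sub continuousAt_const
    apply ContinuousAt.inv₀ (by fun_prop)
    norm_num
  have hz : c * (1 - ((1 : ℝ) ^ 2)⁻¹) = 0 := by norm_num
  rw [hz] at hcont
  obtain ⟨K, hK1, hK2⟩ := ((hcont.eventually (gt_mem_nhds (half_pos hε))).and
    self_mem_nhdsWithin).exists
  have hK2' : 1 < K := hK2
  have hlogK : 0 < Real.log K := Real.log_pos hK2'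
  have h3 := hF.eventually (gt_mem_nhds hlogK)
  have h4 := hermiteV_upper_ev hK2'.le (half_pos hε)
  obtain ⟨N, hN⟩ := eventually_atTop.1 (((h3.and h4).and hF0).and (eventually_gt_atTop 0))
  refine ⟨N, fun n hn => ?_⟩
  obtain ⟨⟨⟨h5, h6⟩, h7⟩, h8⟩ := hN n hn.le
  have hn' : (0 : ℝ) < n := by exact_mod_cast h8
  have hFp : (0 : ℝ) < F n := by exact_mod_cast h7
  rw [div_lt_iff₀ hn'] at h5
  have h9 : (F n : ℝ) ≤ K ^ n := by
    have h10 : Real.log (F n) ≤ Real.log (K ^ n) := by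
      rw [Real.log_pow]
      linarith
    exact (Real.log_le_log_iff hFp (by positivity)).1 h10
  have h11 := h6 (F n) h9
  rw [dist_zero_right, Real.norm_eq_abs, abs_of_nonneg (div_nonneg (hermiteV_nonneg _ _) hn'.le)]
  linarith

end Pool.Agent.J4.H52.VR
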