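import Pool.Agent.J4.H52.VR.Ineq
import Pool.Agent.J4.H52.VR.Gs

/-!
# Lattices with few Voronoi-relevant vectors, by the inequality of Sidak
-/

set_option autoImplicit false

open MeasureTheory
open scoped RealInnerProductSpace ENNReal Pointwise

namespace Pool.Agent.J4.H52.VR

open Pool.Agent.H160R3.Herm

variable {n : ℕ} {A : Matrix (Fin n) (Fin n) ℝ}

/-- the Gaussian measure is at most `(2π)^(-n/2)` times the volume -/
theorem gm_le (n : ℕ) (S : Set (E n)) (hS : MeasurableSet S) :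
    Pool.Agent.PZ871.gm n S ≤ ENNReal.ofReal ((2 * Real.pi) ^ (-(n : ℝ) / 2)) * volume S := by
  rw [Pool.Agent.PZ871.M_gdens.gdens, withDensity_apply _ hS]
  calc ∫⁻ x in S, ENNReal.ofReal ((2 * Real.pi) ^ (-(n : ℝ) / 2) * Real.exp (-‖x‖ ^ 2 / 2))
      ≤ ∫⁻ _ in S, ENNReal.ofReal ((2 * Real.pi) ^ (-(n : ℝ) / 2)) := by
        refine lintegral_mono fun x => ENNReal.ofReal_le_ofReal ?_
        have h1 : Real.exp (-‖x‖ ^ 2 / 2) ≤ 1 := Real.exp_le_one_iff.2 (by
          have := sq_nonneg ‖x‖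
          linarith)
        have h2 : (0 : ℝ) ≤ (2 * Real.pi) ^ (-(n : ℝ) / 2) := by positivity
        nlinarith
    _ = _ := by rw [lintegral_const, Measure.restrict_apply MeasurableSet.univ, Set.univ_inter]

theorem one_sub_pow_ge {y : ℝ} (h0 : 0 ≤ y) (h1 : y ≤ 1 / 2) (F : ℕ) :
    Real.exp (-(2 * y * F)) ≤ (1 - y) ^ F := by
  have h2 : Real.exp (-(2 * y)) ≤ 1 - y := by
    rw [Real.exp_neg, inv_le_iff_one_le_mul₀ (Real.exp_pos _)]
    have := Real.add_one_le_exp (2 * y)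
    nlinarith
  calc Real.exp (-(2 * y * F)) = Real.exp (-(2 * y)) ^ F := by
        rw [← Real.exp_nat_mul]; congr 1; ring
    _ ≤ _ := pow_le_pow_left₀ (Real.exp_pos _).le h2 F

/-- volume of the cell from below -/
theorem vol_cell_ge (hn : 0 < n) (hA : A.det ≠ 0) {F : ℕ} (hF : (relevant A).encard ≤ F)
    {t : ℝ} (ht : 0 < t) (hq : 2 * Real.exp (-t ^ 2 / 2) ≤ 1) {s : ℝ} (hs : 0 < s)
    (hst : 2 * s * t < √(minSq A)) :
    s ^ n * (2 * Real.pi) ^ ((n : ℝ) / 2) * (1 - 2 * Real.exp (-t ^ 2 / 2)) ^ F ≤ |A.det| := by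
  classical
  have hm : 0 < √(minSq A) := lt_trans (by positivity) hst
  have hm0 : 0 < minSq A := Real.sqrt_pos.1 hm
  have hfin : (relevant A).Finite := Set.finite_of_encard_le_coe hF
  set R := hfin.toFinset with hR
  set N := R.card with hN
  have hNF : N ≤ F := by
    have h1 := hF
    rw [hfin.encard_eq_coe_toFinset_card] at h1
    exact_mod_cast h1
  set ex := R.equivFin.symm with hex
  set a : Fin N → E n := fun k => (‖pt A (ex k).1‖ ^ 2)⁻¹ • pt A (ex k).1 with ha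
  set W : ℝ := (√(minSq A))⁻¹ with hW
  have hW0 : 0 < W := inv_pos.2 hm
  have hrel : ∀ k, (ex k).1 ∈ relevant A := fun k => hfin.mem_toFinset.1 (ex k).2
  have hlen : ∀ k, √(minSq A) ≤ ‖pt A (ex k).1‖ := by
    intro k
    apply Real.sqrt_le_iff.2 ⟨norm_nonneg _, ?_⟩
    rw [norm_pt_sq]
    exact minSq_le' A (hrel k).1
  have haW : ∀ k, ‖a k‖ ≤ W := by
    intro k
    have h0 : 0 < ‖pt A (ex k).1‖ := hm.trans_le (hlen k)
    simp only [ha]
    rw [norm_smul, norm_inv, norm_pow, norm_norm, hW]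
    rw [pow_two, mul_inv, mul_assoc, inv_mul_cancel₀ h0.ne', mul_one]
    exact inv_anti₀ hm (hlen k)
  have hpoly := Gs.poly_meas hn a W t hW0 haW ht.le hq
  set P : Set (E n) := {x | ∀ k, |⟪x, a k⟫| ≤ t * W} with hP
  have hPm : MeasurableSet P := by
    have : P = ⋂ k, {x | |⟪x, a k⟫| ≤ t * W} := by ext x; simp [hP]
    rw [this]
    exact MeasurableSet.iInter fun k => measurableSet_le (by fun_prop) measurable_const
  have hsub : s • P ⊆ cell A := by
    rintro _ ⟨x, hx, rfl⟩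
    by_contra hcon
    obtain ⟨v, hv, hxv⟩ := not_mem_cell hA hcon
    have hvR : v ∈ R := hfin.mem_toFinset.2 hv
    have hk := hx (ex.symm ⟨v, hvR⟩)
    simp only [ha, Equiv.apply_symm_apply] at hk
    have hv0 : 0 < ‖pt A v‖ := by
      have := sqLen_pos hA hv.1
      rw [← norm_pt_sq] at this
      rcases lt_or_eq_of_le (norm_nonneg (pt A v)) with h | h
      · exact h
      · rw [← h] at this
        simp at this
    rw [inner_smul_right, abs_mul, abs_of_pos (by positivity)] at hk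
    have k5 : ‖s • x - pt A v‖ ^ 2 = ‖s • x‖ ^ 2 - 2 * ⟪s • x, pt A v⟫ + ‖pt A v‖ ^ 2 :=
      norm_sub_sq_real _ _
    have k6 : ‖s • x - pt A v‖ ^ 2 ≤ ‖s • x‖ ^ 2 := pow_le_pow_left₀ (norm_nonneg _) hxv 2
    rw [inner_smul_left] at k5
    simp only [conj_trivial] at k5
    have k7 : ‖pt A v‖ ^ 2 ≤ 2 * (s * ⟪x, pt A v⟫) := by linarith
    have k8 : |⟪x, pt A v⟫| ≤ t * W * ‖pt A v‖ ^ 2 := by
      rw [inv_mul_le_iff₀ (by positivity)] at hk
      linarith
    have k9 : ⟪x, pt A v⟫ ≤ t * W * ‖pt A v‖ ^ 2 := (le_abs_self _).trans k8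
    have k10 : 2 * s * t * W < 1 := by
      rw [hW, ← div_eq_mul_inv, div_lt_one hm]
      exact hst
    have k11 : 2 * (s * ⟪x, pt A v⟫) ≤ 2 * s * t * W * ‖pt A v‖ ^ 2 := by
      have := mul_le_mul_of_nonneg_left k9 (by positivity : (0 : ℝ) ≤ 2 * s)
      linarith
    have k12 : 0 < ‖pt A v‖ ^ 2 := by positivity
    nlinarith
  have hvol : ENNReal.ofReal (s ^ n) * volume P ≤ ENNReal.ofReal |A.det| := by
    have h1 := (measure_mono hsub).trans (vol_cell_le hn hA)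
    rw [Measure.addHaar_smul, finrank_euclideanSpace_fin, abs_of_pos (by positivity)] at h1
    exact h1
  have hy0 : 0 ≤ 1 - 2 * Real.exp (-t ^ 2 / 2) := by linarith
  have hy1 : 1 - 2 * Real.exp (-t ^ 2 / 2) ≤ 1 := by
    have := Real.exp_pos (-t ^ 2 / 2)
    linarith
  have h2pi : (0 : ℝ) < (2 * Real.pi) ^ ((n : ℝ) / 2) := by positivity
  have e1 : (2 * Real.pi) ^ ((n : ℝ) / 2) * (2 * Real.pi) ^ (-(n : ℝ) / 2) = 1 := by
    rw [← Real.rpow_add (by positivity)]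
    have : (n : ℝ) / 2 + -(n : ℝ) / 2 = 0 := by ring
    rw [this, Real.rpow_zero]
  have hfinal : ENNReal.ofReal (s ^ n * (2 * Real.pi) ^ ((n : ℝ) / 2) *
      (1 - 2 * Real.exp (-t ^ 2 / 2)) ^ N) ≤ ENNReal.ofReal |A.det| := by
    calc ENNReal.ofReal (s ^ n * (2 * Real.pi) ^ ((n : ℝ) / 2) *
          (1 - 2 * Real.exp (-t ^ 2 / 2)) ^ N)
        = ENNReal.ofReal (s ^ n) * (ENNReal.ofReal ((2 * Real.pi) ^ ((n : ℝ) / 2)) *
          ENNReal.ofReal ((1 - 2 * Real.exp (-t ^ 2 / 2)) ^ N)) := by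
          rw [ENNReal.ofReal_mul (by positivity), ENNReal.ofReal_mul (by positivity), mul_assoc]
      _ ≤ ENNReal.ofReal (s ^ n) * (ENNReal.ofReal ((2 * Real.pi) ^ ((n : ℝ) / 2)) *
          (ENNReal.ofReal ((2 * Real.pi) ^ (-(n : ℝ) / 2)) * volume P)) := by
          gcongr
          exact hpoly.trans (gm_le n P hPm)
      _ = ENNReal.ofReal (s ^ n) * volume P := by
          rw [← mul_assoc (ENNReal.ofReal ((2 * Real.pi) ^ ((n : ℝ) / 2))),
            ← ENNReal.ofReal_mul h2pi.le, e1, ENNReal.ofReal_one, one_mul]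
      _ ≤ _ := hvol
  have h3 := (ENNReal.ofReal_le_ofReal_iff (abs_nonneg _)).1 hfinal
  refine le_trans ?_ h3
  exact mul_le_mul_of_nonneg_left (pow_le_pow_of_le_one hy0 hy1 hNF) (by positivity)

end Pool.Agent.J4.H52.VR
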