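import Pool.Agent.J4.H52.VR.Vol
import Pool.Agent.H390R2.LP.Hermite

/-!
# The Hermite invariant and the number of short Voronoi-relevant vectors
-/

set_option autoImplicit false

open MeasureTheory
open scoped RealInnerProductSpace ENNReal

namespace Pool.Agent.J4.H52.VR

open Pool.Agent.H160R3.Herm

variable {n : ℕ} {A : Matrix (Fin n) (Fin n) ℝ}

/-- Hermite invariant -/
noncomputable def inv {n : ℕ} (A : Matrix (Fin n) (Fin n) ℝ) : ℝ :=
  minSq A / |A.det| ^ ((2 : ℝ) / (n : ℝ))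

/-- The bound for the squared lengths. -/
noncomputable def lenB (A : Matrix (Fin n) (Fin n) ℝ) : ℝ :=
  2 * n / (Real.pi * Real.exp 1) * (6 * n : ℝ) ^ ((2 : ℝ) / n) * |A.det| ^ ((2 : ℝ) / n)

theorem kap_ge (hn : 0 < n) {r : ℝ} (hr : 0 ≤ r) :
    (√(2 * Real.pi * Real.exp 1 / n) * r) ^ n / (3 * n) ≤ r ^ n * kap n := by
  have h := Pool.Agent.H390R2.LP.volume_ball_ge n hn 0 r hr
  rw [vol_ball hn _ hr] at h
  exact (ENNReal.ofReal_le_ofReal_iff (mul_nonneg (by positivity) (kap_nonneg n))).1 h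

theorem main_ineq (hn : 0 < n) (hA : A.det ≠ 0) :
    1 ≤ 2 * ((relShort A (lenB A)).ncard : ℝ) *
      (√(1 - Real.pi * Real.exp 1 / 2 * (inv A / n) / (6 * n : ℝ) ^ ((2 : ℝ) / n))) ^ n := by
  have hn' : (0 : ℝ) < n := by exact_mod_cast hn
  have hd : 0 < |A.det| := abs_pos.2 hA
  set c : ℝ := √(2 * Real.pi * Real.exp 1 / n) with hc
  have hc0 : 0 < c := by rw [hc]; positivity
  set X : ℝ := 6 * n * |A.det| with hX
  have hX0 : 0 < X := by positivity
  set ρ : ℝ := X ^ ((1 : ℝ) / n) / c with hρ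
  have hρ0 : 0 < ρ := by positivity
  have h1 : (c * ρ) ^ n = X := by
    rw [hρ, mul_div_cancel₀ _ hc0.ne', ← Real.rpow_natCast, ← Real.rpow_mul hX0.le,
      one_div_mul_cancel hn'.ne', Real.rpow_one]
  have h2 : 2 * |A.det| ≤ ρ ^ n * kap n := by
    have := kap_ge hn hρ0.le
    rw [← hc, h1, hX] at this
    refine le_trans (le_of_eq ?_) this
    field_simp
    norm_num
  have hXs : (X ^ ((1 : ℝ) / n)) ^ 2 = (6 * n : ℝ) ^ ((2 : ℝ) / n) * |A.det| ^ ((2 : ℝ) / n) := by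
    rw [← Real.rpow_natCast, ← Real.rpow_mul hX0.le, hX,
      Real.mul_rpow (by positivity) (abs_nonneg _)]
    have : (1 : ℝ) / n * ((2 : ℕ) : ℝ) = 2 / n := by push_cast; ring
    rw [this]
  have hc2 : c ^ 2 = 2 * Real.pi * Real.exp 1 / n := by
    rw [hc, Real.sq_sqrt (by positivity)]
  have h3 : 4 * ρ ^ 2 = lenB A := by
    rw [hρ, div_pow, hXs, hc2, lenB]
    field_simp
    ring
  have h4 : minSq A / (4 * ρ ^ 2) =
      Real.pi * Real.exp 1 / 2 * (inv A / n) / (6 * n : ℝ) ^ ((2 : ℝ) / n) := by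
    rw [h3, lenB, inv]
    have : 0 < |A.det| ^ ((2 : ℝ) / n) := by positivity
    field_simp
  have h5 := caps hn hA hρ0 h2
  rwa [h4, h3] at h5

theorem inv_nonneg' (A : Matrix (Fin n) (Fin n) ℝ) : 0 ≤ inv A :=
  div_nonneg (minSq_nonneg A) (by positivity)

/-- Explicit inequality in every dimension. -/
theorem inv_le (hn : 0 < n) (hA : A.det ≠ 0) :
    0 < (relShort A (lenB A)).ncard ∧
    inv A / n ≤ 2 / (Real.pi * Real.exp 1) * (6 * n : ℝ) ^ ((2 : ℝ) / n) *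
      (1 - (2 * ((relShort A (lenB A)).ncard : ℝ)) ^ (-(2 : ℝ) / n)) := by
  have hn' : (0 : ℝ) < n := by exact_mod_cast hn
  have h := main_ineq hn hA
  set N : ℝ := ((relShort A (lenB A)).ncard : ℝ) with hN
  set Q := Real.pi * Real.exp 1 / 2 * (inv A / n) / (6 * n : ℝ) ^ ((2 : ℝ) / n) with hQ
  set s := √(1 - Q) with hs
  have hN0 : 0 < N := by
    have h0 : (0 : ℝ) ≤ N := Nat.cast_nonneg _
    rcases lt_or_eq_of_le h0 with h1 | h1
    · exact h1
    · rw [← h1] at h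
      simp at h
      linarith
  have hs0 : 0 < s := by
    rcases lt_or_eq_of_le (Real.sqrt_nonneg (1 - Q)) with h1 | h1
    · exact h1
    · rw [hs, ← h1, zero_pow hn.ne'] at h
      simp at h
      linarith
  have h1Q : 0 < 1 - Q := Real.sqrt_pos.1 hs0
  have hs2 : s ^ 2 = 1 - Q := Real.sq_sqrt h1Q.le
  refine ⟨by rw [hN] at hN0; exact_mod_cast hN0, ?_⟩
  have k1 : (2 * N)⁻¹ ≤ s ^ n := by
    rw [inv_le_iff_one_le_mul₀ (by positivity)]
    linarith
  have k2 : (2 * N) ^ (-(2 : ℝ) / n) ≤ 1 - Q := by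
    have k3 : ((2 * N)⁻¹) ^ ((2 : ℝ) / n) ≤ (s ^ n) ^ ((2 : ℝ) / n) :=
      Real.rpow_le_rpow (by positivity) k1 (by positivity)
    have k4 : (s ^ n) ^ ((2 : ℝ) / n) = s ^ 2 := by
      rw [← Real.rpow_natCast s n, ← Real.rpow_mul hs0.le, mul_div_cancel₀ _ hn'.ne']
      norm_cast
    have k5 : ((2 * N)⁻¹) ^ ((2 : ℝ) / n) = (2 * N) ^ (-(2 : ℝ) / n) := by
      rw [Real.inv_rpow (by positivity), ← Real.rpow_neg (by positivity), neg_div]
    rw [k4, k5, hs2] at k3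
    exact k3
  have k6 : inv A / n = 2 / (Real.pi * Real.exp 1) * (6 * n : ℝ) ^ ((2 : ℝ) / n) * Q := by
    rw [hQ]
    have : 0 < (6 * n : ℝ) ^ ((2 : ℝ) / n) := by positivity
    have hpi := Real.pi_pos
    field_simp
  rw [k6]
  exact mul_le_mul_of_nonneg_left (by linarith) (by positivity)

end Pool.Agent.J4.H52.VR
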