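import Pool.Agent.J4.H52.VR.Gauss

/-!
# Upper bound by the logarithm of the number of Voronoi-relevant vectors
-/

set_option autoImplicit false

open MeasureTheory
open scoped RealInnerProductSpace ENNReal

namespace Pool.Agent.J4.H52.VR

open Pool.Agent.H160R3.Herm

variable {n : ℕ} {A : Matrix (Fin n) (Fin n) ℝ}

theorem num_const : (2 : ℝ) / 7 ≤ (999 / 1000) ^ 2 * Real.pi / (4 * Real.exp 1) := by
  have h1 := Real.exp_one_lt_d9
  have h2 := Real.pi_gt_d2
  have h3 := Real.exp_pos 1
  rw [le_div_iff₀ (by positivity)]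
  nlinarith

/-- A lattice of rank `n` with at most `F` Voronoi-relevant vectors has Hermite invariant at most
`(7/2) log (8F/n)`. -/
theorem inv_le_log (hn : 0 < n) (hA : A.det ≠ 0) {F : ℕ} (hF0 : n ≤ 2 * F)
    (hF : (relevant A).encard ≤ F) : inv A ≤ 7 / 2 * Real.log (8 * F / n) := by
  have hn' : (0 : ℝ) < n := by exact_mod_cast hn
  have hFn : (n : ℝ) ≤ 2 * F := by exact_mod_cast hF0
  have hFp : (0 : ℝ) < F := by linarith
  set T := Real.log (8 * F / n) with hT
  have h4 : (4 : ℝ) ≤ 8 * F / n := by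
    rw [le_div_iff₀ hn']
    linarith
  have hT0 : 0 < T := Real.log_pos (by linarith)
  have hd : 0 < |A.det| := abs_pos.2 hA
  rcases lt_or_eq_of_le (minSq_nonneg A) with hm | hm
  swap
  · rw [inv, ← hm, zero_div]
    positivity
  set t := √(2 * T) with ht
  have ht0 : 0 < t := Real.sqrt_pos.2 (by positivity)
  have ht2 : t ^ 2 = 2 * T := Real.sq_sqrt (by positivity)
  have hexp : Real.exp (-t ^ 2 / 2) = n / (8 * F) := by
    rw [ht2, show -(2 * T) / 2 = -T by ring, Real.exp_neg, hT, Real.exp_log (by positivity),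
      inv_div]
  set y : ℝ := n / (4 * F) with hy
  have hy1 : 2 * Real.exp (-t ^ 2 / 2) = y := by
    rw [hexp, hy]
    field_simp
    norm_num
  have hy2 : y ≤ 1 / 2 := by
    rw [hy, div_le_iff₀ (by positivity)]
    linarith
  have hy0 : 0 ≤ y := by positivity
  set s : ℝ := 999 / 1000 * √(minSq A) / (2 * t) with hs
  have hsm : 0 < √(minSq A) := Real.sqrt_pos.2 hm
  have hs0 : 0 < s := by positivity
  have hst : 2 * s * t < √(minSq A) := by
    have : 2 * s * t = 999 / 1000 * √(minSq A) := by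
      rw [hs]
      field_simp
    rw [this]
    linarith
  have hv := vol_cell_ge hn hA hF ht0 (by rw [hy1]; linarith) hs0 hst
  rw [hy1] at hv
  have hv2 : s ^ n * (2 * Real.pi) ^ ((n : ℝ) / 2) * Real.exp (-(n : ℝ) / 2) ≤ |A.det| := by
    refine le_trans ?_ hv
    apply mul_le_mul_of_nonneg_left _ (by positivity)
    refine le_trans (le_of_eq ?_) (one_sub_pow_ge hy0 hy2 F)
    congr 1
    rw [hy]
    field_simp
    norm_num
  have hv3 : s ^ 2 * (2 * Real.pi) * Real.exp (-1) ≤ |A.det| ^ ((2 : ℝ) / n) := by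
    have h := Real.rpow_le_rpow (by positivity) hv2 (by positivity : (0 : ℝ) ≤ 2 / n)
    refine le_trans (le_of_eq ?_) h
    rw [Real.mul_rpow (by positivity) (by positivity), Real.mul_rpow (by positivity) (by positivity)]
    congr 1
    · congr 1
      · rw [← Real.rpow_natCast s n, ← Real.rpow_mul hs0.le, mul_div_cancel₀ _ hn'.ne']
        norm_cast
      · rw [← Real.rpow_mul (by positivity)]
        have : (n : ℝ) / 2 * (2 / n) = 1 := by field_simp
        rw [this, Real.rpow_one]
    · rw [← Real.exp_mul]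
      congr 1
      field_simp
  have hs2 : s ^ 2 = (999 / 1000) ^ 2 * minSq A / (8 * T) := by
    rw [hs, div_pow, mul_pow, mul_pow, Real.sq_sqrt hm.le, ht2]
    ring
  have hdp : 0 < |A.det| ^ ((2 : ℝ) / n) := by positivity
  rw [inv, div_le_iff₀ hdp]
  have h5 : 2 / 7 * (minSq A / T) ≤ |A.det| ^ ((2 : ℝ) / n) := by
    refine le_trans ?_ hv3
    rw [hs2, Real.exp_neg]
    have e : (999 / 1000) ^ 2 * minSq A / (8 * T) * (2 * Real.pi) * (Real.exp 1)⁻¹ =
        ((999 / 1000) ^ 2 * Real.pi / (4 * Real.exp 1)) * (minSq A / T) := by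
      have := Real.exp_pos 1
      field_simp
      norm_num
    rw [e]
    exact mul_le_mul_of_nonneg_right num_const (by positivity)
  calc minSq A = 7 / 2 * T * (2 / 7 * (minSq A / T)) := by field_simp
    _ ≤ _ := mul_le_mul_of_nonneg_left h5 (by positivity)

theorem inv_le_log' (hn : 0 < n) (hA : A.det ≠ 0) {F : ℕ} (hF0 : 2 * n ≤ F)
    (hF : (relevant A).encard ≤ F) : inv A ≤ 7 * Real.log (2 * F / n) := by
  have hn' : (0 : ℝ) < n := by exact_mod_cast hn
  have hFn : 2 * (n : ℝ) ≤ F := by exact_mod_cast hF0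
  have hFp : (0 : ℝ) < F := by linarith
  refine (inv_le_log hn hA (by omega) hF).trans ?_
  have h4 : (4 : ℝ) ≤ 2 * F / n := by
    rw [le_div_iff₀ hn']
    linarith
  have e : Real.log (8 * F / n) = Real.log 4 + Real.log (2 * F / n) := by
    rw [← Real.log_mul (by norm_num) (by positivity)]
    congr 1
    ring
  have h5 : Real.log 4 ≤ Real.log (2 * F / n) := Real.log_le_log (by norm_num) h4
  rw [e]
  linarith

end Pool.Agent.J4.H52.VR
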