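import Pool.Agent.J4.H52.VR.Cell

/-!
# The volume of the Voronoi cell and the covering of a ball by caps
-/

set_option autoImplicit false

open MeasureTheory
open scoped RealInnerProductSpace ENNReal

namespace Pool.Agent.J4.H52.VR

open Pool.Agent.H160R3.Herm

variable {n : ℕ} {A : Matrix (Fin n) (Fin n) ℝ}

theorem measurable_cell (A : Matrix (Fin n) (Fin n) ℝ) : MeasurableSet (cell A) := by
  have h : cell A = ⋂ w : Fin n → ℤ, {x : E n | w ≠ 0 → ‖x‖ < ‖x - pt A w‖} := by
    ext x
    simp [cell]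
  rw [h]
  refine MeasurableSet.iInter fun w => ?_
  by_cases hw : w ≠ 0
  · have : {x : E n | w ≠ 0 → ‖x‖ < ‖x - pt A w‖} = {x : E n | ‖x‖ < ‖x - pt A w‖} := by
      ext x; simp [hw]
    rw [this]
    exact measurableSet_lt (by fun_prop) (by fun_prop)
  · have : {x : E n | w ≠ 0 → ‖x‖ < ‖x - pt A w‖} = Set.univ := by
      ext x; simp [hw]
    rw [this]
    exact MeasurableSet.univ

/-- volumes in the coordinates of the lattice -/
theorem vol_pre (hA : A.det ≠ 0) {T : Set (E n)} (hT : MeasurableSet T) :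
    volume ((fun z : Fin n → ℝ => (WithLp.toLp 2 (Matrix.mulVec A z) : E n)) ⁻¹' T) =
      ENNReal.ofReal |A.det|⁻¹ * volume T := by
  have h1 : (fun z : Fin n → ℝ => (WithLp.toLp 2 (Matrix.mulVec A z) : E n)) ⁻¹' T =
      (Matrix.toLin' A) ⁻¹' ((WithLp.toLp 2 : (Fin n → ℝ) → E n) ⁻¹' T) := by
    ext z
    simp
  have hdet : LinearMap.det (Matrix.toLin' A) ≠ 0 := by
    rw [LinearMap.det_toLin']
    exact hA
  rw [h1, Measure.addHaar_preimage_linearMap _ hdet, LinearMap.det_toLin', abs_inv,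
    (PiLp.volume_preserving_toLp (Fin n)).measure_preimage hT.nullMeasurableSet]

theorem vol_cell_le (hn : 0 < n) (hA : A.det ≠ 0) : volume (cell A) ≤ ENNReal.ofReal |A.det| := by
  classical
  have hne : Nonempty (Fin n) := ⟨⟨0, hn⟩⟩
  set S : Set (Fin n → ℝ) := (fun z : Fin n → ℝ => (WithLp.toLp 2 (Matrix.mulVec A z) : E n)) ⁻¹'
    (cell A) with hS
  have hSvol := vol_pre hA (measurable_cell A)
  rw [← hS] at hSvol
  have hSm : MeasurableSet S := by
    apply MeasurableSet.preimage (measurable_cell A)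
    have h2 : Continuous fun z : Fin n → ℝ => Matrix.mulVec A z :=
      (Matrix.toLin' A).continuous_of_finiteDimensional
    exact ((PiLp.volume_preserving_toLp (Fin n)).measurable).comp h2.measurable
  have key : volume S ≤ 1 := by
    by_contra hcon
    push Not at hcon
    set b := Pi.basisFun ℝ (Fin n) with hb
    set L : AddSubgroup (Fin n → ℝ) := (Submodule.span ℤ (Set.range b)).toAddSubgroup with hL
    have fund : IsAddFundamentalDomain L (ZSpan.fundamentalDomain b) volume :=
      ZSpan.isAddFundamentalDomain' b volume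
    have hvol : volume (ZSpan.fundamentalDomain b) = 1 := by
      rw [ZSpan.volume_fundamentalDomain]
      have : (Matrix.of b) = (1 : Matrix (Fin n) (Fin n) ℝ) := by
        ext i j
        simp [hb, Matrix.one_apply, Pi.single_apply, eq_comm]
      rw [this]
      simp
    have hcount : Countable L :=
      inferInstanceAs (Countable (Submodule.span ℤ (Set.range b)))
    obtain ⟨x, y, hxy, hdis⟩ := exists_pair_mem_lattice_not_disjoint_vadd
      (s := S) fund hSm.nullMeasurableSet (by rw [hvol]; exact hcon)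
    rw [Set.not_disjoint_iff] at hdis
    obtain ⟨z, hzx, hzy⟩ := hdis
    rw [Set.mem_vadd_set] at hzx hzy
    obtain ⟨p, hp, hpz⟩ := hzx
    obtain ⟨q, hq, hqz⟩ := hzy
    have hpz' : (x : Fin n → ℝ) + p = z := hpz
    have hqz' : (y : Fin n → ℝ) + q = z := hqz
    have int : ∀ x : L, ∃ w : Fin n → ℤ, (x : Fin n → ℝ) = fun j => (w j : ℝ) := by
      intro x
      have hxL : (x : Fin n → ℝ) ∈ Submodule.span ℤ (Set.range b) := x.2
      rw [b.mem_span_iff_repr_mem ℤ] at hxL
      choose w hw using hxL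
      refine ⟨w, ?_⟩
      ext j
      have := hw j
      simp [hb] at this
      exact this.symm
    obtain ⟨v, hv⟩ := int x
    obtain ⟨w, hw⟩ := int y
    have hvw : v - w ≠ 0 := by
      intro h
      apply hxy
      apply Subtype.ext
      rw [hv, hw, sub_eq_zero.1 h]
    have hwv : w - v ≠ 0 := by
      intro h
      apply hvw
      rw [← neg_sub, h, neg_zero]
    -- `q = p + (v - w)`
    have e1 : q - p = fun j => ((v - w) j : ℝ) := by
      have : q - p = (x : Fin n → ℝ) - y := by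
        have h1 : p = z - (x : Fin n → ℝ) := by rw [← hpz']; abel
        have h2 : q = z - (y : Fin n → ℝ) := by rw [← hqz']; abel
        rw [h1, h2]; abel
      rw [this, hv, hw]
      ext j
      simp
    have hp' := hp (w - v) hwv
    have hq' := hq (v - w) hvw
    have g1 : (WithLp.toLp 2 (Matrix.mulVec A p) : E n) - pt A (w - v) =
        WithLp.toLp 2 (Matrix.mulVec A q) := by
      unfold pt
      rw [← WithLp.toLp_sub, ← Matrix.mulVec_sub]
      congr 2
      have : (fun j => ((w - v) j : ℝ)) = p - q := by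
        have h3 : p - q = -(q - p) := by abel
        rw [h3, e1]
        ext j
        simp
      rw [this]
      abel
    have g2 : (WithLp.toLp 2 (Matrix.mulVec A q) : E n) - pt A (v - w) =
        WithLp.toLp 2 (Matrix.mulVec A p) := by
      unfold pt
      rw [← WithLp.toLp_sub, ← Matrix.mulVec_sub, ← e1]
      congr 2
      abel
    have hp2 : ‖(WithLp.toLp 2 (Matrix.mulVec A p) : E n)‖ <
        ‖(WithLp.toLp 2 (Matrix.mulVec A p) : E n) - pt A (w - v)‖ := hp'
    have hq2 : ‖(WithLp.toLp 2 (Matrix.mulVec A q) : E n)‖ <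
        ‖(WithLp.toLp 2 (Matrix.mulVec A q) : E n) - pt A (v - w)‖ := hq'
    rw [g1] at hp2
    rw [g2] at hq2
    exact absurd hp2 (not_lt.2 hq2.le)
  rw [hSvol] at key
  have hd : 0 < |A.det| := abs_pos.2 hA
  calc volume (cell A) = ENNReal.ofReal |A.det| * (ENNReal.ofReal |A.det|⁻¹ * volume (cell A)) := by
        rw [← mul_assoc, ← ENNReal.ofReal_mul hd.le, mul_inv_cancel₀ hd.ne', ENNReal.ofReal_one,
          one_mul]
    _ ≤ ENNReal.ofReal |A.det| * 1 := by gcongr
    _ = _ := mul_one _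

/-- volume of the unit ball -/
noncomputable def kap (n : ℕ) : ℝ := (volume (Metric.ball (0 : E n) 1)).toReal

theorem kap_nonneg (n : ℕ) : 0 ≤ kap n := ENNReal.toReal_nonneg

theorem vol_ball (hn : 0 < n) (x : E n) {r : ℝ} (hr : 0 ≤ r) :
    volume (Metric.ball x r) = ENNReal.ofReal (r ^ n * kap n) := by
  have hne : Nonempty (Fin n) := ⟨⟨0, hn⟩⟩
  have : Nontrivial (E n) := inferInstance
  rw [Measure.addHaar_ball _ _ hr, ENNReal.ofReal_mul (by positivity), kap,
    ENNReal.ofReal_toReal measure_ball_lt_top.ne, finrank_euclideanSpace_fin]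

/-- covering of the ball by the cell and by caps -/
theorem ball_ineq (hn : 0 < n) (hA : A.det ≠ 0) {ρ : ℝ} (hρ : 0 ≤ ρ) :
    ρ ^ n * kap n ≤ |A.det| +
      (relShort A (4 * ρ ^ 2)).ncard * ((√(ρ ^ 2 - minSq A / 4)) ^ n * kap n) := by
  have hfin := relShort_finite hA (4 * ρ ^ 2)
  have hk := kap_nonneg n
  have h1 : volume (Metric.ball (0 : E n) ρ) ≤ ENNReal.ofReal |A.det| +
      ∑ v ∈ hfin.toFinset, volume (Metric.ball ((1 / 2 : ℝ) • pt A v)
        (√(ρ ^ 2 - minSq A / 4))) := by
    refine (measure_mono (ball_subset hA ρ)).trans ((measure_union_le _ _).trans ?_)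
    refine add_le_add (vol_cell_le hn hA) ?_
    have : (⋃ v ∈ relShort A (4 * ρ ^ 2), Metric.ball ((1 / 2 : ℝ) • pt A v)
        (√(ρ ^ 2 - minSq A / 4))) = ⋃ v ∈ hfin.toFinset, Metric.ball ((1 / 2 : ℝ) • pt A v)
        (√(ρ ^ 2 - minSq A / 4)) := by
      ext x
      simp
    rw [this]
    exact measure_biUnion_finset_le _ _
  rw [vol_ball hn _ hρ] at h1
  simp_rw [vol_ball hn _ (Real.sqrt_nonneg _)] at h1
  rw [Finset.sum_const, nsmul_eq_mul, ← Set.ncard_eq_toFinset_card _ hfin] at h1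
  have h2 : ((relShort A (4 * ρ ^ 2)).ncard : ℝ≥0∞) =
      ENNReal.ofReal ((relShort A (4 * ρ ^ 2)).ncard : ℝ) := by
    rw [ENNReal.ofReal_natCast]
  rw [h2, ← ENNReal.ofReal_mul (Nat.cast_nonneg _), ← ENNReal.ofReal_add (abs_nonneg _)
    (by positivity)] at h1
  exact (ENNReal.ofReal_le_ofReal_iff (by positivity)).1 h1

/-- If the volume of the ball is at least twice the covolume, the caps cover half of it. -/
theorem caps (hn : 0 < n) (hA : A.det ≠ 0) {ρ : ℝ} (hρ : 0 < ρ)
    (h : 2 * |A.det| ≤ ρ ^ n * kap n) :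
    1 ≤ 2 * (relShort A (4 * ρ ^ 2)).ncard * (√(1 - minSq A / (4 * ρ ^ 2))) ^ n := by
  have h1 := ball_ineq hn hA hρ.le
  have hd : 0 < |A.det| := abs_pos.2 hA
  have hp : 0 < ρ ^ n * kap n := by linarith
  have e : √(ρ ^ 2 - minSq A / 4) = ρ * √(1 - minSq A / (4 * ρ ^ 2)) := by
    have : ρ ^ 2 - minSq A / 4 = ρ ^ 2 * (1 - minSq A / (4 * ρ ^ 2)) := by
      field_simp
    rw [this, Real.sqrt_mul (by positivity), Real.sqrt_sq hρ.le]
  rw [e, mul_pow] at h1
  set N : ℝ := ((relShort A (4 * ρ ^ 2)).ncard : ℝ) with hN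
  set q := (√(1 - minSq A / (4 * ρ ^ 2))) ^ n with hq
  have h2 : ρ ^ n * kap n ≤ 2 * N * q * (ρ ^ n * kap n) := by nlinarith
  by_contra hcon
  push Not at hcon
  nlinarith

end Pool.Agent.J4.H52.VR
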